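import Pool.Agent.H38.ET8.W247.ET.Stm

/-!
# ET-SPA: sparsity of sets with bounded representation function
-/

set_option autoImplicit false

open Finset

namespace Pool.Agent.W55.ET

open Pool.Agent.W247.ET

theorem rep_mono {s B : Finset ℕ} (h : s ⊆ B) (n : ℕ) : rep s n ≤ rep B n := by
  unfold rep
  exact card_le_card (filter_subset_filter _ (product_subset_product h h))

theorem sq_card_le {K : ℕ} {B : Finset ℕ} (h0 : 0 ∉ B) (hK : ∀ n, rep B n ≤ K) {a : ℕ}
    (ha : ∀ x ∈ B, x ≤ a) : B.card ^ 2 ≤ 2 * a * K := by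
  have h1 : (B ×ˢ B).card = ∑ n ∈ Icc 1 (2 * a), rep B n := by
    unfold rep
    apply card_eq_sum_card_fiberwise
    intro p hp
    rw [mem_coe, mem_product] at hp
    show p.1 + p.2 ∈ ((Icc 1 (2 * a) : Finset ℕ) : Set ℕ)
    rw [mem_coe, mem_Icc]
    have h1 := ha _ hp.1
    have h2 := ha _ hp.2
    have h3 : p.1 ≠ 0 := fun h => h0 (h ▸ hp.1)
    omega
  calc B.card ^ 2 = (B ×ˢ B).card := by rw [card_product, pow_two]
    _ = ∑ n ∈ Icc 1 (2 * a), rep B n := h1
    _ ≤ ∑ _n ∈ Icc 1 (2 * a), K := sum_le_sum fun n _ => hK n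
    _ = 2 * a * K := by simp

/-- `∑ 1 / (i + 1)^2 ≤ 2 - 1 / m` -/
theorem sum_inv_sq (m : ℕ) : ∑ i ∈ range (m + 1), 1 / ((i : ℝ) + 1) ^ 2 ≤ 2 - 1 / ((m : ℝ) + 1) := by
  induction m with
  | zero => norm_num
  | succ m ih =>
    rw [sum_range_succ]
    have h : 1 / ((m : ℝ) + 1 + 1) ^ 2 ≤ 1 / ((m : ℝ) + 1) - 1 / ((m : ℝ) + 1 + 1) := by
      rw [div_sub_div _ _ (by positivity) (by positivity), div_le_div_iff₀ (by positivity)
        (by positivity)]
      have : (0 : ℝ) ≤ m := Nat.cast_nonneg m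
      nlinarith
    push_cast
    linarith

theorem sum_inv_sq_le (m : ℕ) : ∑ i ∈ range m, 1 / ((i : ℝ) + 1) ^ 2 ≤ 2 := by
  rcases m with _ | m
  · simp
  · have h := sum_inv_sq m
    have h2 : (0 : ℝ) ≤ 1 / ((m : ℝ) + 1) := by positivity
    linarith

theorem aux (K : ℕ) (B : Finset ℕ) : 0 ∉ B → (∀ n, rep B n ≤ K) →
    ∑ a ∈ B, 1 / (a : ℝ) ≤ ∑ i ∈ range B.card, 2 * K * (1 / ((i : ℝ) + 1) ^ 2) := by
  induction B using Finset.induction_on_max with
  | empty => intro _ _; simp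
  | insert a s hs ih =>
    intro h0 hK
    have ha : a ∉ s := fun h => lt_irrefl _ (hs a h)
    have h0s : 0 ∉ s := fun h => h0 (mem_insert_of_mem h)
    have ha0 : a ≠ 0 := fun h => h0 (by rw [h]; exact mem_insert_self _ _)
    have h1 := ih h0s (fun n => (rep_mono (subset_insert a s) n).trans (hK n))
    have h2 := sq_card_le (a := a) h0 hK (by
      intro x hx
      rw [mem_insert] at hx
      rcases hx with rfl | hx
      · exact le_rfl
      · exact (hs x hx).le)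
    rw [card_insert_of_notMem ha] at h2
    rw [sum_insert ha, card_insert_of_notMem ha, sum_range_succ]
    have hapos : (0 : ℝ) < a := by exact_mod_cast Nat.pos_of_ne_zero ha0
    have h3 : ((s.card : ℝ) + 1) ^ 2 ≤ 2 * a * K := by exact_mod_cast h2
    have h4 : 1 / (a : ℝ) ≤ 2 * K * (1 / ((s.card : ℝ) + 1) ^ 2) := by
      rw [mul_one_div, div_le_div_iff₀ hapos (by positivity)]
      linarith
    linarith

theorem main : SPA_stmt := by
  intro K
  refine ⟨4 * K, fun B h0 hK => (aux K B h0 hK).trans ?_⟩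
  rw [← mul_sum]
  have h := sum_inv_sq_le B.card
  have hK0 : (0 : ℝ) ≤ 2 * K := by positivity
  calc 2 * (K : ℝ) * ∑ i ∈ range B.card, 1 / ((i : ℝ) + 1) ^ 2 ≤ 2 * K * 2 :=
        mul_le_mul_of_nonneg_left h hK0
    _ = 4 * K := by ring

end Pool.Agent.W55.ET
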